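import Pool.Agent.helper88.Mink.Rep

set_option autoImplicit false
open Matrix Set Filter Topology
open scoped Pointwise Matrix.Norms.Elementwise

namespace Pool.Agent.Results.MP_aac655_gt.TraceZeroUsc

/-- `W₀`: the space of real `n × n` matrices of trace zero, with the norm induced by the
entrywise sup norm. -/
abbrev W (n : ℕ) : Submodule ℝ (Matrix (Fin n) (Fin n) ℝ) :=
  LinearMap.ker (traceLinearMap (Fin n) ℝ ℝ)

/-- the conjugation action `A ↦ T A T⁻¹` of `SL(n,ℝ)` on trace-zero matrices -/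
noncomputable def conj {n : ℕ} (T : SpecialLinearGroup (Fin n) ℝ) (A : W n) : W n :=
  ⟨(T : Matrix (Fin n) (Fin n) ℝ) * A.1 *
    ((T⁻¹ : SpecialLinearGroup (Fin n) ℝ) : Matrix (Fin n) (Fin n) ℝ), by
      have h1 : ((T⁻¹ : SpecialLinearGroup (Fin n) ℝ) : Matrix (Fin n) (Fin n) ℝ) *
        (T : Matrix (Fin n) (Fin n) ℝ) = 1 := congrArg Subtype.val (inv_mul_cancel T)
      have h2 : trace A.1 = 0 := A.2
      rw [LinearMap.mem_ker, traceLinearMap_apply, Matrix.trace_mul_comm, ← Matrix.mul_assoc, h1,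
        Matrix.one_mul, h2]⟩

/-- convex bodies in `ℝⁿ` containing the origin in their interior -/
def IsBody {n : ℕ} (K : Set (Fin n → ℝ)) : Prop :=
  IsCompact K ∧ Convex ℝ K ∧ (0 : Fin n → ℝ) ∈ interior K

theorem result (n : ℕ) (hn : 2 ≤ n) :
    ∃ Φ : Set (Fin n → ℝ) → Set (W n),
      (∀ K, IsBody K → (Φ K).Nonempty ∧ IsCompact (Φ K) ∧ Convex ℝ (Φ K)) ∧
      (∀ (T : SpecialLinearGroup (Fin n) ℝ) (K : Set (Fin n → ℝ)), IsBody K →
        conj T '' Φ ((fun x => ((T⁻¹ : SpecialLinearGroup (Fin n) ℝ) :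
          Matrix (Fin n) (Fin n) ℝ) *ᵥ x) '' K) = Φ K) ∧
      (∀ K L : Set (Fin n → ℝ), IsBody K → IsBody L → Convex ℝ (K ∪ L) →
        Φ (K ∪ L) + Φ (K ∩ L) = Φ K + Φ L) ∧
      (∃ K, IsBody K ∧ Φ K ≠ {0}) ∧
      (∀ D : Set (W n), IsCompact D → Convex ℝ D → (0 : W n) ∈ interior D →
        ∀ (Ks : ℕ → Set (Fin n → ℝ)) (K : Set (Fin n → ℝ)), (∀ j, IsBody (Ks j)) → IsBody K →
          Tendsto (fun j => Metric.hausdorffDist (Ks j) K) atTop (𝓝 0) →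
          ∃ j0 : ℕ, ∀ j, j0 ≤ j → Φ (Ks j) ⊆ Φ K + D) ∧
      (∃ (Ks : ℕ → Set (Fin n → ℝ)) (K : Set (Fin n → ℝ)), (∀ j, IsBody (Ks j)) ∧ IsBody K ∧
          Tendsto (fun j => Metric.hausdorffDist (Ks j) K) atTop (𝓝 0) ∧
          ¬ Tendsto (fun j => Metric.hausdorffDist (Φ (Ks j)) (Φ K)) atTop (𝓝 0)) := by
  have hn0 : 0 < n := by omega
  have hF : Continuous (Pool.Agent.helper88.Mink.G0 (n := n) hn0) :=
    Pool.Agent.helper88.Mink.cont_G0 hn0
  have hu := Pool.Agent.helper88.Mink.en_single hn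
  have hFu : Pool.Agent.helper88.Mink.G0 hn0
      ((Pi.single (⟨0, by omega⟩ : Fin n) 1 : Fin n → ℝ),
      (Pi.single (⟨0, by omega⟩ : Fin n) 1 : Fin n → ℝ)) ≠ 0 := by
    intro h
    exact Pool.Agent.helper88.Mink.G_ne hn (congrArg Subtype.val h)
  refine ⟨Pool.Agent.helper88.Mink.Phi (Pool.Agent.helper88.Mink.G0 hn0), ?_, ?_, ?_, ?_, ?_, ?_⟩
  · rintro K ⟨h1, h2, h3⟩
    exact ⟨Pool.Agent.helper88.Mink.Phi_nonempty hF hn0 ⟨h1, h2, h3⟩,
      Pool.Agent.helper88.Mink.CC_compact _, Pool.Agent.helper88.Mink.CC_convex _⟩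
  · rintro T K ⟨h1, h2, h3⟩
    have hTT : ∀ w : W n, conj T (Pool.Agent.helper88.Mink.Ad T⁻¹ w) = w := by
      intro w
      have e1 : conj T (Pool.Agent.helper88.Mink.Ad T⁻¹ w) =
        Pool.Agent.helper88.Mink.Ad T (Pool.Agent.helper88.Mink.Ad T⁻¹ w) := rfl
      rw [e1, ← Module.End.mul_apply, ← map_mul, mul_inv_cancel, map_one, Module.End.one_apply]
    have hTT' : ∀ w : W n, Pool.Agent.helper88.Mink.Ad T⁻¹
        (Pool.Agent.helper88.Mink.Ad T w) = w := by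
      intro w
      rw [← Module.End.mul_apply, ← map_mul, inv_mul_cancel, map_one, Module.End.one_apply]
    have h4 := Pool.Agent.helper88.Mink.Phi_image hF (Pool.Agent.helper88.Mink.coe_inv_mul T)
      (Pool.Agent.helper88.Mink.coe_mul_inv T) (T⁻¹).2 (K := K) ⟨h1, h2, h3⟩
      (R := Pool.Agent.helper88.Mink.Ad T⁻¹) (R' := Pool.Agent.helper88.Mink.Ad T)
      hTT' hTT (by
        intro x y
        apply Subtype.ext
        rw [Pool.Agent.helper88.Mink.Ad_coe]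
        have := Pool.Agent.helper88.Mink.G_equiv (Pool.Agent.helper88.Mink.coe_inv_mul T)
          (Pool.Agent.helper88.Mink.coe_mul_inv T) x y
        rw [inv_inv]
        exact this)
    rw [h4, image_image]
    simp only [hTT, image_id']
  · rintro K L ⟨h1, h2, h3⟩ ⟨h4, h5, h6⟩ hc
    exact Pool.Agent.helper88.Mink.Phi_add hF hn0 ⟨h1, h2, h3⟩ ⟨h4, h5, h6⟩ hc
  · have hB := Pool.Agent.helper88.Mink.body_EB (n := n)
    exact ⟨Pool.Agent.helper88.Mink.EB n, ⟨hB.comp, hB.conv, hB.zint⟩,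
      Pool.Agent.helper88.Mink.Phi_ball_ne hn0 hF hu hFu⟩
  · rintro D _ _ hD Ks K hKs ⟨h1, h2, h3⟩ hlim
    exact Pool.Agent.helper88.Mink.Phi_usc hF hn0
      (fun j => ⟨(hKs j).1, (hKs j).2.1, (hKs j).2.2⟩) ⟨h1, h2, h3⟩ hlim hD
  · obtain ⟨Ks, K, hKs, hK, hlim, hnot⟩ :=
      Pool.Agent.helper88.Mink.Phi_not_cont hn hF hu hFu
    exact ⟨Ks, K, fun j => ⟨(hKs j).comp, (hKs j).conv, (hKs j).zint⟩,
      ⟨hK.comp, hK.conv, hK.zint⟩, hlim, hnot⟩

end Pool.Agent.Results.MP_aac655_gt.TraceZeroUsc
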